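import Pool.Agent.H54.XN.Lin

/-!
# The product with the power `A^(n-2)` of an ample class is injective on classes of divisors
-/

namespace Pool.Agent.H21.XN

open Pool.Agent.H54.XN

variable {r m : ℕ} {B : BCl r m}

/-- An isotropic vector orthogonal to a vector of positive square is in the kernel of the form. -/
theorem kernel {s : Multiset B.V} {a u : B.V} (hs : ∀ x ∈ s, B.Nef x) (ha : 0 < B.I (a ::ₘ a ::ₘ s))
    (hu : B.I (u ::ₘ a ::ₘ s) = 0) (huu : B.I (u ::ₘ u ::ₘ s) = 0) (w : B.V) :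
    B.I (u ::ₘ w ::ₘ s) = 0 := by
  set q : B.V → B.V → ℝ := fun x y => B.I (x ::ₘ y ::ₘ s) with hq
  have hadd : ∀ x y z, q (x + y) z = q x z + q y z := fun x y z => BCl.I_add _ _ _
  have hmul : ∀ (t : ℝ) x y, q (t • x) y = t * q x y := fun t x y => BCl.I_smul _ _ _
  have hsub : ∀ x y z, q (x - y) z = q x z - q y z := fun x y z => BCl.I_sub _ _ _
  have hsym : ∀ x y, q x y = q y x := fun x y => by
    show B.I (x ::ₘ y ::ₘ s) = B.I (y ::ₘ x ::ₘ s)
    rw [Multiset.cons_swap]
  have hadd' : ∀ x y z, q x (y + z) = q x y + q x z := fun x y z => by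
    rw [hsym, hadd, hsym y, hsym z]
  have hmul' : ∀ (t : ℝ) x y, q x (t • y) = t * q x y := fun t x y => by
    rw [hsym, hmul, hsym]
  have hind : ∀ x, q x a = 0 → q x x ≤ 0 := fun x hx => B.index s x a hs ha hx
  have ha' : 0 < q a a := ha
  have hu' : q u a = 0 := hu
  have huu' : q u u = 0 := huu
  show q u w = 0
  set c := q w a / q a a with hc
  set w' := w - c • a with hw'
  have h1 : q w' a = 0 := by
    rw [hw', hsub, hmul, hc, div_mul_cancel₀ _ ha'.ne', sub_self]
  have h2 : ∀ t : ℝ, q w' w' + 2 * t * q w' u ≤ 0 := by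
    intro t
    have h3 := hind (w' + t • u) (by rw [hadd, hmul, h1, hu', mul_zero, add_zero])
    rw [hadd, hadd', hadd', hmul, hmul, hmul', hmul', huu', hsym u w'] at h3
    linarith
  have h3 : q w' u = 0 := by
    by_contra hne
    have h4 := h2 ((1 - q w' w') / (2 * q w' u))
    have h5 : 2 * ((1 - q w' w') / (2 * q w' u)) * q w' u = 1 - q w' w' := by
      field_simp
    rw [h5] at h4
    linarith
  have h4 : q w u = 0 := by
    have e : w = w' + c • a := by rw [hw', sub_add_cancel]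
    rw [e, hadd, hmul, h3, hsym a u, hu', mul_zero, add_zero]
  rw [hsym]
  exact h4

/-- sufficiently positive classes -/
def Big (B : BCl r m) (y : Fin r → ℝ) : Prop := B.Nef (B.pb (y - B.A))

theorem Big.nef {y : Fin r → ℝ} (h : Big B y) : B.Nef (B.pb y) := by
  have h1 := B.nef_add _ _ h B.nef_A
  rw [← BCl.pb_add, sub_add_cancel] at h1
  exact h1

theorem exists_big (y : Fin r → ℝ) : ∃ s : ℝ, Big B (s • B.A + y) := by
  obtain ⟨t, ht⟩ := B.ample y
  refine ⟨t + 1, ?_⟩
  unfold Big
  have e : (t + 1) • B.A + y - B.A = t • B.A + y := by module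
  rw [e]
  exact ht

theorem big_A : Big B B.A := by
  unfold Big
  rw [sub_self]
  have h := B.nef_smul 0 (B.pb B.A) le_rfl B.nef_A
  rwa [← BCl.pb_smul, zero_smul] at h

theorem nef_map {t : Multiset (Fin r → ℝ)} (ht : ∀ y ∈ t, Big B y) (k : ℕ) :
    ∀ x ∈ t.map B.pb + Multiset.replicate k (B.pb B.A), B.Nef x := by
  intro x hx
  rcases Multiset.mem_add.1 hx with h | h
  · obtain ⟨y, hy, rfl⟩ := Multiset.mem_map.1 h
    exact (ht y hy).nef
  · rw [Multiset.eq_of_mem_replicate h]
    exact B.nef_A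

/-- positivity -/
theorem pos_big (hA : 0 < B.I (Multiset.replicate (m + 4) (B.pb B.A))) (t : Multiset (Fin r → ℝ)) :
    (∀ y ∈ t, Big B y) → ∀ k, k + Multiset.card t = m + 2 →
      0 < B.I (B.pb B.A ::ₘ B.pb B.A ::ₘ (t.map B.pb + Multiset.replicate k (B.pb B.A))) := by
  induction t using Multiset.induction_on with
  | empty =>
    intro _ k hk
    rw [Multiset.card_zero, add_zero] at hk
    subst hk
    rw [Multiset.map_zero, zero_add, ← Multiset.replicate_succ, ← Multiset.replicate_succ]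
    exact hA
  | cons y t ih =>
    intro ht k hk
    rw [Multiset.card_cons] at hk
    have h1 := ih (fun z hz => ht z (Multiset.mem_cons_of_mem hz)) (k + 1) (by omega)
    have hy := ht y (Multiset.mem_cons_self _ _)
    have e1 : B.pb y = B.pb (y - B.A) + B.pb B.A := by
      rw [← BCl.pb_add, sub_add_cancel]
    have e2 : B.pb B.A ::ₘ B.pb B.A ::ₘ ((y ::ₘ t).map B.pb + Multiset.replicate k (B.pb B.A)) =
        B.pb y ::ₘ B.pb B.A ::ₘ B.pb B.A ::ₘ (t.map B.pb + Multiset.replicate k (B.pb B.A)) := by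
      rw [Multiset.map_cons, Multiset.cons_add, Multiset.cons_swap _ (B.pb y),
        Multiset.cons_swap _ (B.pb y)]
    have e3 : B.pb B.A ::ₘ B.pb B.A ::ₘ (t.map B.pb + Multiset.replicate (k + 1) (B.pb B.A)) =
        B.pb B.A ::ₘ B.pb B.A ::ₘ B.pb B.A ::ₘ (t.map B.pb + Multiset.replicate k (B.pb B.A)) := by
      rw [Multiset.replicate_succ, Multiset.add_cons]
    rw [e2, e1, BCl.I_add]
    rw [e3] at h1
    refine add_pos_of_nonneg_of_pos (B.nonneg _ ?_) h1
    intro x hx
    simp only [Multiset.mem_cons] at hx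
    rcases hx with rfl | rfl | rfl | hx
    · exact hy
    · exact B.nef_A
    · exact B.nef_A
    · exact nef_map (fun z hz => ht z (Multiset.mem_cons_of_mem hz)) k x hx

/-- the class `x` is orthogonal to all products of sufficiently positive classes -/
theorem orth_big (hA : 0 < B.I (Multiset.replicate (m + 4) (B.pb B.A))) {x : Fin r → ℝ}
    (h : ∀ w, B.I (B.pb x ::ₘ w ::ₘ Multiset.replicate (m + 2) (B.pb B.A)) = 0)
    (t : Multiset (Fin r → ℝ)) :
    (∀ y ∈ t, Big B y) → ∀ k, k + Multiset.card t = m + 2 → ∀ w,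
      B.I (B.pb x ::ₘ w ::ₘ (t.map B.pb + Multiset.replicate k (B.pb B.A))) = 0 := by
  induction t using Multiset.induction_on with
  | empty =>
    intro _ k hk w
    rw [Multiset.card_zero, add_zero] at hk
    subst hk
    rw [Multiset.map_zero, zero_add]
    exact h w
  | cons y t ih =>
    intro ht k hk
    rw [Multiset.card_cons] at hk
    have ht' : ∀ z ∈ t, Big B z := fun z hz => ht z (Multiset.mem_cons_of_mem hz)
    have hy := ht y (Multiset.mem_cons_self _ _)
    have IH := ih ht' (k + 1) (by omega)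
    set M := t.map B.pb + Multiset.replicate k (B.pb B.A) with hM
    have e0 : t.map B.pb + Multiset.replicate (k + 1) (B.pb B.A) = B.pb B.A ::ₘ M := by
      rw [Multiset.replicate_succ, Multiset.add_cons]
    rw [e0] at IH
    have hnef : ∀ z, Big B z → ∀ x ∈ B.pb z ::ₘ M, B.Nef x := fun z hz x hx => by
      rcases Multiset.mem_cons.1 hx with rfl | hx
      · exact hz.nef
      · exact nef_map ht' k x hx
    have hpos : ∀ z, Big B z → 0 < B.I (B.pb B.A ::ₘ B.pb B.A ::ₘ B.pb z ::ₘ M) := fun z hz => by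
      have h1 := pos_big hA (z ::ₘ t) (fun y hy => by
        rcases Multiset.mem_cons.1 hy with rfl | hy
        · exact hz
        · exact ht' y hy) k (by rw [Multiset.card_cons]; omega)
      rwa [Multiset.map_cons, Multiset.cons_add] at h1
    have hxA : ∀ z, B.I (B.pb x ::ₘ B.pb B.A ::ₘ B.pb z ::ₘ M) = 0 := fun z => by
      rw [Multiset.cons_swap (B.pb B.A)]
      exact IH (B.pb z)
    have le : ∀ z, Big B z → B.I (B.pb x ::ₘ B.pb x ::ₘ B.pb z ::ₘ M) ≤ 0 := fun z hz =>
      B.index _ _ (B.pb B.A) (hnef z hz) (hpos z hz) (hxA z)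
    set f : (Fin r → ℝ) → ℝ := fun z => B.I (B.pb x ::ₘ B.pb x ::ₘ B.pb z ::ₘ M) with hf
    have hfr : ∀ z, f z = B.I (B.pb z ::ₘ B.pb x ::ₘ B.pb x ::ₘ M) := fun z => by
      show B.I (B.pb x ::ₘ B.pb x ::ₘ B.pb z ::ₘ M) = _
      rw [Multiset.cons_swap _ (B.pb z), Multiset.cons_swap _ (B.pb z)]
    have hfadd : ∀ z z', f (z + z') = f z + f z' := fun z z' => by
      rw [hfr, hfr, hfr, BCl.pb_add, BCl.I_add]
    have hfmul : ∀ (c : ℝ) z, f (c • z) = c * f z := fun c z => by
      rw [hfr, hfr, BCl.pb_smul, BCl.I_smul]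
    have hfA : f B.A = 0 := IH (B.pb x)
    obtain ⟨s, hs⟩ := exists_big (B := B) (-y)
    have h1 : f (s • B.A + -y) ≤ 0 := le _ hs
    rw [hfadd, hfmul, hfA, mul_zero, zero_add, ← neg_one_smul ℝ y, hfmul] at h1
    have h2 : f y ≤ 0 := le y hy
    have h3 : f y = 0 := by linarith
    intro w
    rw [Multiset.map_cons, Multiset.cons_add]
    exact kernel (hnef y hy) (hpos y hy) (hxA y) h3 w

/-- and to all products -/
theorem orth_all (hA : 0 < B.I (Multiset.replicate (m + 4) (B.pb B.A))) {x : Fin r → ℝ}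
    (h : ∀ w, B.I (B.pb x ::ₘ w ::ₘ Multiset.replicate (m + 2) (B.pb B.A)) = 0)
    (s : Multiset (Fin r → ℝ)) : ∀ t : Multiset (Fin r → ℝ), (∀ y ∈ t, Big B y) →
      B.I (B.pb x ::ₘ (s.map B.pb + t.map B.pb)) = 0 := by
  induction s using Multiset.induction_on with
  | empty =>
    intro t ht
    rw [Multiset.map_zero, zero_add]
    by_cases hc : Multiset.card t = m + 3
    · obtain ⟨y, t', rfl⟩ : ∃ y t', t = y ::ₘ t' := by
        have h0 : t ≠ 0 := by
          rintro rfl
          simp at hc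
        obtain ⟨y, hy⟩ := Multiset.exists_mem_of_ne_zero h0
        exact ⟨y, Multiset.exists_cons_of_mem hy⟩
      rw [Multiset.card_cons] at hc
      have h1 := orth_big hA h t' (fun z hz => ht z (Multiset.mem_cons_of_mem hz)) 0 (by omega)
        (B.pb y)
      rw [Multiset.replicate_zero, add_zero] at h1
      rw [Multiset.map_cons]
      exact h1
    · refine B.I_card _ ?_
      rw [Multiset.card_cons, Multiset.card_map]
      omega
  | cons y s ih =>
    intro t ht
    obtain ⟨c, hc⟩ := exists_big (B := B) y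
    set f : (Fin r → ℝ) → ℝ := fun z => B.I (B.pb x ::ₘ B.pb z ::ₘ (s.map B.pb + t.map B.pb)) with hf
    have hfr : ∀ z, f z = B.I (B.pb z ::ₘ B.pb x ::ₘ (s.map B.pb + t.map B.pb)) := fun z => by
      show B.I (B.pb x ::ₘ B.pb z ::ₘ (s.map B.pb + t.map B.pb)) = _
      rw [Multiset.cons_swap]
    have hfadd : ∀ z z', f (z + z') = f z + f z' := fun z z' => by
      rw [hfr, hfr, hfr, BCl.pb_add, BCl.I_add]
    have hfmul : ∀ (c : ℝ) z, f (c • z) = c * f z := fun c z => by
      rw [hfr, hfr, BCl.pb_smul, BCl.I_smul]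
    have hfb : ∀ z, Big B z → f z = 0 := fun z hz => by
      have h1 := ih (z ::ₘ t) fun y hy => by
        rcases Multiset.mem_cons.1 hy with rfl | hy
        · exact hz
        · exact ht y hy
      rw [Multiset.map_cons, Multiset.add_cons] at h1
      exact h1
    have h1 := hfb _ hc
    rw [hfadd, hfmul, hfb _ big_A, mul_zero, zero_add] at h1
    rw [Multiset.map_cons, Multiset.cons_add]
    exact h1

/-- if a class is orthogonal to `A` and its square is zero for the form `x.y.A^(n-2)` then it is zero -/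
theorem index_eq (hA : 0 < B.I (Multiset.replicate (m + 4) (B.pb B.A))) {x : Fin r → ℝ}
    (h : B.I (B.pb x ::ₘ B.pb B.A ::ₘ Multiset.replicate (m + 2) (B.pb B.A)) = 0)
    (h' : B.I (B.pb x ::ₘ B.pb x ::ₘ Multiset.replicate (m + 2) (B.pb B.A)) = 0) : x = 0 := by
  have h1 := kernel (fun y hy => by rw [Multiset.eq_of_mem_replicate hy]; exact B.nef_A)
    (by rw [← Multiset.replicate_succ, ← Multiset.replicate_succ]; exact hA) h h'
  refine B.nd x fun s => ?_
  have h2 := orth_all hA h1 s 0 (fun y hy => absurd hy (Multiset.notMem_zero y))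
  rwa [Multiset.map_zero, add_zero] at h2

/-- `A` has positive degree -/
theorem A_pos {L : Fin r → ℝ} (hL : B.Nef (B.pb L))
    (pos : 0 < B.I (B.pb L ::ₘ B.pb L ::ₘ Multiset.replicate (m + 2) (B.pb B.A))) :
    0 < B.I (Multiset.replicate (m + 4) (B.pb B.A)) := by
  set q : B.V → B.V → ℝ := fun x y => B.I (x ::ₘ y ::ₘ Multiset.replicate (m + 2) (B.pb B.A)) with hq
  have hsub : ∀ x y z, q (x - y) z = q x z - q y z := fun x y z => BCl.I_sub _ _ _
  have hmul : ∀ (t : ℝ) x y, q (t • x) y = t * q x y := fun t x y => BCl.I_smul _ _ _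
  have hsym : ∀ x y, q x y = q y x := fun x y => by
    show B.I (x ::ₘ y ::ₘ _) = B.I (y ::ₘ x ::ₘ _)
    rw [Multiset.cons_swap]
  have hnn : ∀ x y, B.Nef x → B.Nef y → 0 ≤ q x y := fun x y hx hy => B.nonneg _ fun z hz => by
    simp only [Multiset.mem_cons] at hz
    rcases hz with rfl | rfl | hz
    · exact hx
    · exact hy
    · rw [Multiset.eq_of_mem_replicate hz]
      exact B.nef_A
  have hgoal : B.I (Multiset.replicate (m + 4) (B.pb B.A)) = q (B.pb B.A) (B.pb B.A) := by
    show _ = B.I (B.pb B.A ::ₘ B.pb B.A ::ₘ Multiset.replicate (m + 2) (B.pb B.A))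
    rw [← Multiset.replicate_succ, ← Multiset.replicate_succ]
  rw [hgoal]
  obtain ⟨s, hs⟩ := exists_big (B := B) (-L)
  have e : B.pb (s • B.A + -L) = s • B.pb B.A - B.pb L := by
    rw [← BCl.pb_smul, ← BCl.pb_sub, sub_eq_add_neg]
  have h1 := hs.nef
  rw [e] at h1
  have h2 := hnn _ _ h1 hL
  have h3 := hnn _ _ h1 B.nef_A
  have h5 := hnn _ _ B.nef_A B.nef_A
  rw [hsub, hmul] at h2 h3
  rw [hsym (B.pb B.A) (B.pb L)] at h2
  have h6 : 0 ≤ q (B.pb L) (B.pb B.A) := hnn _ _ hL B.nef_A
  have pos' : 0 < q (B.pb L) (B.pb L) := pos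
  rcases lt_or_eq_of_le h5 with h7 | h7
  · exact h7
  · rw [← h7, mul_zero] at h3
    have h8 : q (B.pb L) (B.pb B.A) = 0 := by linarith
    rw [h8, mul_zero] at h2
    linarith

end Pool.Agent.H21.XN
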