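import Pool.Agent.H21.XN.Lef
import Pool.Agent.H81.XN.Defs

/-!
# If `L^3.A^(n-3) = 0` then `L^3` is numerically trivial
-/

namespace Pool.Agent.H21.XN

open Pool.Agent.H54.XN Pool.Agent.H81.XN

variable {r m : ℕ} {B : BCl r m}

/-- sufficiently positive b-classes -/
def Large (B : BCl r m) (w : B.V) : Prop := B.Nef (w - B.pb B.A)

theorem Large.nef {w : B.V} (h : Large B w) : B.Nef w := by
  have h1 := B.nef_add _ _ h B.nef_A
  rwa [sub_add_cancel] at h1

theorem exists_large (w : B.V) : ∃ a b, Large B a ∧ Large B b ∧ w = a - b := by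
  obtain ⟨a, b, ha, hb, e⟩ := B.gen w
  refine ⟨a + B.pb B.A, b + B.pb B.A, ?_, ?_, ?_⟩
  · unfold Large
    rwa [add_sub_cancel_right]
  · unfold Large
    rwa [add_sub_cancel_right]
  · rw [e]
    abel

theorem nef_large {t : Multiset B.V} (ht : ∀ y ∈ t, Large B y) (k : ℕ) :
    ∀ x ∈ t + Multiset.replicate k (B.pb B.A), B.Nef x := by
  intro x hx
  rcases Multiset.mem_add.1 hx with h | h
  · exact (ht x h).nef
  · rw [Multiset.eq_of_mem_replicate h]
    exact B.nef_A

theorem nef_cons' {s : Multiset B.V} {a : B.V} (ha : B.Nef a) (hs : ∀ x ∈ s, B.Nef x) :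
    ∀ x ∈ a ::ₘ s, B.Nef x := by
  intro x hx
  rcases Multiset.mem_cons.1 hx with rfl | hx
  · exact ha
  · exact hs x hx

/-- positivity -/
theorem pos_large {l : B.V} (hl : B.Nef l) (pos : 0 < AA B l l) (t : Multiset B.V) :
    (∀ y ∈ t, Large B y) → ∀ k, k + Multiset.card t = m →
      0 < B.I (l ::ₘ l ::ₘ B.pb B.A ::ₘ B.pb B.A ::ₘ (t + Multiset.replicate k (B.pb B.A))) := by
  induction t using Multiset.induction_on with
  | empty =>
    intro _ k hk
    rw [Multiset.card_zero, add_zero] at hk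
    subst hk
    rw [zero_add, ← Multiset.replicate_succ, ← Multiset.replicate_succ]
    exact pos
  | cons y t ih =>
    intro ht k hk
    rw [Multiset.card_cons] at hk
    have ht' : ∀ z ∈ t, Large B z := fun z hz => ht z (Multiset.mem_cons_of_mem hz)
    have h1 := ih ht' (k + 1) (by omega)
    have hy := ht y (Multiset.mem_cons_self _ _)
    have e1 : y = (y - B.pb B.A) + B.pb B.A := by rw [sub_add_cancel]
    have e2 : l ::ₘ l ::ₘ B.pb B.A ::ₘ B.pb B.A ::ₘ (y ::ₘ t + Multiset.replicate k (B.pb B.A)) =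
        y ::ₘ l ::ₘ l ::ₘ B.pb B.A ::ₘ B.pb B.A ::ₘ (t + Multiset.replicate k (B.pb B.A)) := by
      rw [Multiset.cons_add, Multiset.cons_swap _ y, Multiset.cons_swap _ y, Multiset.cons_swap _ y,
        Multiset.cons_swap _ y]
    have e3 : l ::ₘ l ::ₘ B.pb B.A ::ₘ B.pb B.A ::ₘ (t + Multiset.replicate (k + 1) (B.pb B.A)) =
        B.pb B.A ::ₘ l ::ₘ l ::ₘ B.pb B.A ::ₘ B.pb B.A ::ₘ (t + Multiset.replicate k (B.pb B.A)) := by
      rw [Multiset.replicate_succ, Multiset.add_cons, Multiset.cons_swap l (B.pb B.A),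
        Multiset.cons_swap l (B.pb B.A)]
    rw [e2, e1, BCl.I_add]
    rw [e3] at h1
    refine add_pos_of_nonneg_of_pos (B.nonneg _ ?_) h1
    exact nef_cons' hy (nef_cons' hl (nef_cons' hl (nef_cons' B.nef_A (nef_cons' B.nef_A
      (nef_large ht' k)))))

theorem cube_one {L : Fin r → ℝ} (hL : B.Nef (B.pb L))
    (h0 : B.I (B.pb L ::ₘ B.pb L ::ₘ B.pb L ::ₘ Multiset.replicate (m + 1) (B.pb B.A)) = 0) (w : B.V) :
    B.I (B.pb L ::ₘ B.pb L ::ₘ B.pb L ::ₘ w ::ₘ Multiset.replicate m (B.pb B.A)) = 0 := by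
  set l := B.pb L with hl
  set M := Multiset.replicate m (B.pb B.A) with hM
  have hrot : ∀ w, B.I (l ::ₘ l ::ₘ l ::ₘ w ::ₘ M) = B.I (w ::ₘ l ::ₘ l ::ₘ l ::ₘ M) := fun w => by
    rw [Multiset.cons_swap l w, Multiset.cons_swap l w, Multiset.cons_swap l w]
  have h0' : B.I (l ::ₘ l ::ₘ l ::ₘ B.pb B.A ::ₘ M) = 0 := by
    rw [Multiset.replicate_succ] at h0
    exact h0
  have key : ∀ y : Fin r → ℝ, 0 ≤ B.I (l ::ₘ l ::ₘ l ::ₘ B.pb y ::ₘ M) := fun y => by
    obtain ⟨t, ht⟩ := B.ample y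
    have h2 := B.nonneg _ (nef_cons' hL (nef_cons' hL (nef_cons' hL (nef_cons' ht
      (fun x hx => by rw [Multiset.eq_of_mem_replicate hx]; exact B.nef_A : ∀ x ∈ M, B.Nef x)))))
    rw [hrot, BCl.pb_add, BCl.pb_smul, BCl.I_add, BCl.I_smul, ← hrot, ← hrot, h0', mul_zero,
      zero_add] at h2
    exact h2
  have e : l ::ₘ l ::ₘ l ::ₘ M = (L ::ₘ L ::ₘ L ::ₘ Multiset.replicate m B.A).map B.pb := by
    simp only [Multiset.map_cons, Multiset.map_replicate, hl, hM]
  rw [hrot, e, B.proj, ← e, ← hrot]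
  refine le_antisymm ?_ (key _)
  have h2 := key ((-1 : ℝ) • B.cx w)
  rw [hrot, BCl.pb_smul, BCl.I_smul, ← hrot] at h2
  linarith

theorem cube_large {L : Fin r → ℝ} (hL : B.Nef (B.pb L)) (pos : 0 < AA B (B.pb L) (B.pb L))
    (h0 : B.I (B.pb L ::ₘ B.pb L ::ₘ B.pb L ::ₘ Multiset.replicate (m + 1) (B.pb B.A)) = 0)
    (t : Multiset B.V) : (∀ y ∈ t, Large B y) → ∀ k, k + Multiset.card t = m → ∀ w,
      B.I (B.pb L ::ₘ B.pb L ::ₘ B.pb L ::ₘ w ::ₘ (t + Multiset.replicate k (B.pb B.A))) = 0 := by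
  induction t using Multiset.induction_on with
  | empty =>
    intro _ k hk w
    rw [Multiset.card_zero, add_zero] at hk
    subst hk
    rw [zero_add]
    exact cube_one hL h0 w
  | cons y t ih =>
    intro ht k hk
    rw [Multiset.card_cons] at hk
    have ht' : ∀ z ∈ t, Large B z := fun z hz => ht z (Multiset.mem_cons_of_mem hz)
    have hy := ht y (Multiset.mem_cons_self _ _)
    have IH := ih ht' (k + 1) (by omega)
    set l := B.pb L with hl
    set A := B.pb B.A with hA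
    set M := t + Multiset.replicate k A with hM
    have hMn : ∀ x ∈ M, B.Nef x := nef_large ht' k
    have e0 : t + Multiset.replicate (k + 1) A = A ::ₘ M := by
      rw [Multiset.replicate_succ, Multiset.add_cons]
    rw [e0] at IH
    -- the form `u.v.l.l.y.M`
    have hs : ∀ x ∈ l ::ₘ l ::ₘ y ::ₘ M, B.Nef x := nef_cons' hL (nef_cons' hL (nef_cons' hy.nef hMn))
    have hAA : 0 < B.I (A ::ₘ A ::ₘ l ::ₘ l ::ₘ y ::ₘ M) := by
      have h1 := pos_large hL pos (y ::ₘ t) ht k (by rw [Multiset.card_cons]; omega)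
      rw [Multiset.cons_add] at h1
      rw [Multiset.cons_swap A l, Multiset.cons_swap A l, Multiset.cons_swap A l,
        Multiset.cons_swap A l]
      exact h1
    have hlA : B.I (l ::ₘ A ::ₘ l ::ₘ l ::ₘ y ::ₘ M) = 0 := by
      rw [Multiset.cons_swap A l, Multiset.cons_swap A l, Multiset.cons_swap A y]
      exact IH y
    have hll : B.I (l ::ₘ l ::ₘ l ::ₘ l ::ₘ y ::ₘ M) = 0 := by
      refine le_antisymm ?_ (B.nonneg _ (nef_cons' hL (nef_cons' hL hs)))
      obtain ⟨c, hc⟩ := B.ample ((-1 : ℝ) • L)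
      have h1 := B.nonneg _ (nef_cons' hc (nef_cons' hL hs))
      rw [BCl.pb_add, BCl.pb_smul, BCl.pb_smul, BCl.I_add, BCl.I_smul, BCl.I_smul,
        Multiset.cons_swap (B.pb B.A) (B.pb L), ← hl, ← hA, hlA, mul_zero, zero_add] at h1
      linarith
    intro w
    have h1 := kernel hs hAA hlA hll w
    rw [Multiset.cons_add]
    rw [Multiset.cons_swap w l, Multiset.cons_swap w l] at h1
    exact h1

theorem cube_all {L : Fin r → ℝ} (hL : B.Nef (B.pb L)) (pos : 0 < AA B (B.pb L) (B.pb L))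
    (h0 : B.I (B.pb L ::ₘ B.pb L ::ₘ B.pb L ::ₘ Multiset.replicate (m + 1) (B.pb B.A)) = 0)
    (s : Multiset B.V) : ∀ t : Multiset B.V, (∀ y ∈ t, Large B y) →
      B.I (B.pb L ::ₘ B.pb L ::ₘ B.pb L ::ₘ (s + t)) = 0 := by
  induction s using Multiset.induction_on with
  | empty =>
    intro t ht
    rw [zero_add]
    by_cases hc : Multiset.card t = m + 1
    · obtain ⟨y, t', rfl⟩ : ∃ y t', t = y ::ₘ t' := by
        have h1 : t ≠ 0 := by
          rintro rfl
          simp at hc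
        obtain ⟨y, hy⟩ := Multiset.exists_mem_of_ne_zero h1
        exact ⟨y, Multiset.exists_cons_of_mem hy⟩
      rw [Multiset.card_cons] at hc
      have h1 := cube_large hL pos h0 t' (fun z hz => ht z (Multiset.mem_cons_of_mem hz)) 0
        (by omega) y
      rwa [Multiset.replicate_zero, add_zero] at h1
    · refine B.I_card _ ?_
      rw [Multiset.card_cons, Multiset.card_cons, Multiset.card_cons]
      omega
  | cons v s ih =>
    intro t ht
    obtain ⟨a, b, ha, hb, e⟩ := exists_large v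
    set l := B.pb L with hl
    have hr : ∀ v, B.I (l ::ₘ l ::ₘ l ::ₘ v ::ₘ (s + t)) = B.I (v ::ₘ l ::ₘ l ::ₘ l ::ₘ (s + t)) :=
      fun v => by
        rw [Multiset.cons_swap l v, Multiset.cons_swap l v, Multiset.cons_swap l v]
    have h1 : ∀ a, Large B a → B.I (l ::ₘ l ::ₘ l ::ₘ a ::ₘ (s + t)) = 0 := fun a ha => by
      have h2 := ih (a ::ₘ t) fun y hy => by
        rcases Multiset.mem_cons.1 hy with rfl | hy
        · exact ha
        · exact ht y hy
      rwa [Multiset.add_cons] at h2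
    rw [Multiset.cons_add, hr, e, BCl.I_sub, ← hr, ← hr, h1 a ha, h1 b hb, sub_zero]

/-- If `L` is nef, `L^3.A^(n-3) = 0` and `L^2.A^(n-2) ≠ 0` then `L` has numerical dimension two. -/
theorem two_of {L : Fin r → ℝ} (hL : B.Nef (B.pb L))
    (h0 : B.I (B.pb L ::ₘ B.pb L ::ₘ B.pb L ::ₘ Multiset.replicate (m + 1) (B.pb B.A)) = 0)
    (h1 : AA B (B.pb L) (B.pb L) ≠ 0) : Two B L := by
  have pos : 0 < AA B (B.pb L) (B.pb L) := by
    refine lt_of_le_of_ne (B.nonneg _ (nef_cons' hL (nef_cons' hL ?_))) h1.symm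
    intro x hx
    rw [Multiset.eq_of_mem_replicate hx]
    exact B.nef_A
  refine ⟨hL, fun s => ?_, pos⟩
  have h2 := cube_all hL pos h0 s 0 fun y hy => absurd hy (Multiset.notMem_zero y)
  rwa [add_zero] at h2

end Pool.Agent.H21.XN
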